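import Pool.Agent.helper51.VF.SpecB
import Pool.Agent.helper51.VF.Lib
import Pool.Agent.helper41.QS.TEQ

/-!
# vf:GRG: the function of the p-closed derivation is regular
-/

set_option autoImplicit false

namespace Pool.Agent.VF

open Pool.Agent.PC Pool.Agent.QS MvPolynomial

universe u

/-- the local ring inside the field -/
theorem GRG_map (A K : Type u) [CommRing A] [IsDomain A] [Field K] [Algebra A K] [IsFractionRing A K] (m : Ideal A) [hm : m.IsPrime] :
    ∃ ι : Localization.AtPrime m →+* K, (∀ x : A, ι (algebraMap A (Localization.AtPrime m) x) = algebraMap A K x) ∧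
      (∀ w : K, Loc m w ↔ ∃ z, ι z = w) ∧ Function.Injective ι := by
  have hu : ∀ y : m.primeCompl, IsUnit (algebraMap A K y) := fun y =>
    (LB_ne (K := K) (Q := m) y.2).isUnit
  obtain ⟨ι, hι⟩ : ∃ ι : Localization.AtPrime m →+* K, ∀ x : A, ι (algebraMap A (Localization.AtPrime m) x) = algebraMap A K x :=
    ⟨IsLocalization.lift (M := m.primeCompl) hu, fun x => IsLocalization.lift_eq hu x⟩
  have h1 : ∀ z : Localization.AtPrime m, ∃ a s : A, s ∉ m ∧ z * algebraMap A (Localization.AtPrime m) s = algebraMap A (Localization.AtPrime m) a ∧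
      ι z = algebraMap A K a / algebraMap A K s := by
    intro z
    obtain ⟨⟨a, s⟩, hs⟩ := IsLocalization.surj m.primeCompl z
    have hs' : z * algebraMap A (Localization.AtPrime m) s = algebraMap A (Localization.AtPrime m) a := hs
    refine ⟨a, s, s.2, hs', ?_⟩
    have h2 := congrArg ι hs'
    rw [map_mul, hι, hι] at h2
    rw [eq_div_iff (LB_ne (K := K) (Q := m) s.2)]
    exact h2
  refine ⟨ι, hι, fun w => ⟨?_, ?_⟩, ?_⟩
  · rintro ⟨a, s, hs, rfl⟩
    refine ⟨IsLocalization.mk' (Localization.AtPrime m) a (⟨s, hs⟩ : m.primeCompl), ?_⟩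
    have h2 : IsLocalization.mk' (Localization.AtPrime m) a (⟨s, hs⟩ : m.primeCompl) * algebraMap A (Localization.AtPrime m) s =
        algebraMap A (Localization.AtPrime m) a := IsLocalization.mk'_spec (Localization.AtPrime m) a (⟨s, hs⟩ : m.primeCompl)
    have h3 := congrArg ι h2
    rw [map_mul, hι, hι] at h3
    rw [eq_div_iff (LB_ne (K := K) hs)]
    exact h3
  · rintro ⟨z, rfl⟩
    obtain ⟨a, s, hs, -, h⟩ := h1 z
    exact ⟨a, s, hs, h⟩
  · rw [injective_iff_map_eq_zero]
    intro z hz
    obtain ⟨a, s, hs, h2, h3⟩ := h1 z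
    rw [hz] at h3
    have h4 : algebraMap A K a = 0 := by
      rcases div_eq_zero_iff.1 h3.symm with h | h
      · exact h
      · exact absurd h (LB_ne (K := K) hs)
    have h5 : a = 0 := IsFractionRing.injective A K (by rw [h4, map_zero])
    rw [h5, map_zero] at h2
    have hu2 : IsUnit (algebraMap A (Localization.AtPrime m) s) :=
      IsLocalization.map_units (Localization.AtPrime m) (⟨s, hs⟩ : m.primeCompl)
    exact (hu2.mul_left_eq_zero).1 h2

theorem GRG : GRG_stmt.{u} := by
  intro k A F K _ _ _ _ _ _ _ _ _ _ _ _ _ _ p m _ hUF δ g hSat hP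
  haveI : IsDomain (Localization.AtPrime m) :=
    IsLocalization.isDomain_localization m.primeCompl_le_nonZeroDivisors
  obtain ⟨ι, hι, hloc, hinj⟩ := GRG_map A K m
  obtain ⟨x, y, hy, hxy⟩ := IsFractionRing.div_surjective (A := A) g
  have hy0 : y ≠ 0 := nonZeroDivisors.ne_zero hy
  have hyK : algebraMap A K y ≠ 0 := fun h => hy0 (IsFractionRing.injective A K (by rw [h, map_zero]))
  have hLinj : Function.Injective (algebraMap A (Localization.AtPrime m)) :=
    IsLocalization.injective _ m.primeCompl_le_nonZeroDivisors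
  have hyL : algebraMap A (Localization.AtPrime m) y ≠ 0 := fun h => hy0 (hLinj (by rw [h, map_zero]))
  obtain ⟨a', b', c', hrel, ha, hb⟩ := UniqueFactorizationMonoid.exists_reduced_factors'
    (algebraMap A (Localization.AtPrime m) x) (algebraMap A (Localization.AtPrime m) y) hyL
  have hc0 : c' ≠ 0 := by
    intro h
    rw [h, zero_mul] at hb
    exact hyL hb.symm
  have hb0 : b' ≠ 0 := by
    intro h
    rw [h, mul_zero] at hb
    exact hyL hb.symm
  have hιc : ι c' ≠ 0 := fun h => hc0 (hinj (by rw [h, map_zero]))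
  have hgb : g * ι b' = ι a' := by
    have h1 : g * algebraMap A K y = algebraMap A K x := by
      rw [← hxy]
      field_simp
    rw [← hι, ← hι, ← ha, ← hb, map_mul, map_mul] at h1
    apply mul_left_cancel₀ hιc
    rw [← h1]
    ring
  -- b' divides all the derivatives
  have hdvd : ∀ z : A, ∃ w : Localization.AtPrime m, ι w = δ (algebraMap A K z) ∧ b' ∣ w := by
    intro z
    obtain ⟨w, hw⟩ := (hloc _).1 (hSat.1 z)
    have h2 : Loc m ((⇑δ)^[p] (algebraMap A K z)) := LB_der_iter hSat.1 p (LB_of (Ideal.IsMaximal.ne_top inferInstance) z)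
    rw [hP (algebraMap A K z)] at h2
    obtain ⟨w2, hw2⟩ := (hloc _).1 h2
    refine ⟨w, hw, ?_⟩
    have h3 : b' * w2 = a' * w := by
      apply hinj
      rw [map_mul, map_mul, hw2, hw, ← hgb]
      ring
    exact hrel.symm.dvd_of_dvd_mul_left (Dvd.intro _ h3)
  by_cases hunit : IsUnit b'
  · obtain ⟨b'', hb''⟩ := hunit.exists_right_inv
    rw [hloc]
    refine ⟨a' * b'', ?_⟩
    have h1 : ι b' * ι b'' = 1 := by rw [← map_mul, hb'', map_one]
    rw [map_mul, ← hgb, mul_assoc, h1, mul_one]
  · exfalso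
    obtain ⟨q, hq, hqb⟩ := WfDvdMonoid.exists_irreducible_factor hunit hb0
    have hqp : Prime q := UniqueFactorizationMonoid.irreducible_iff_prime.1 hq
    obtain ⟨hQ1, hQ2, hQ3⟩ := TEQ_ht m q hqp
    obtain ⟨z, hz⟩ := hSat.2 _ hQ1 hQ2 hQ3
    apply hz
    obtain ⟨w, hw, hbw⟩ := hdvd z
    obtain ⟨⟨a0, s0⟩, hs⟩ := IsLocalization.surj m.primeCompl w
    have hs' : w * algebraMap A (Localization.AtPrime m) s0 = algebraMap A (Localization.AtPrime m) a0 := hs
    refine ⟨a0, s0, fun h => s0.2 (hQ3 h), ?_, ?_⟩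
    · rw [Ideal.mem_comap, Ideal.mem_span_singleton, ← hs']
      exact ((hqb.trans hbw).mul_right _)
    · have h2 := congrArg ι hs'
      rw [map_mul, hι, hι, hw] at h2
      rw [eq_div_iff (LB_ne (K := K) (Q := m) s0.2)]
      exact h2

end Pool.Agent.VF
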